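import Pool.Agent.R877.RN.Stm2

/-!
# Piece ZCH of the project on MP_6ec3b3_gt
-/

namespace R877.RN
open Matrix Filter Topology

section transfer

variable {g g' : Type} [LieRing g] [LieAlgebra ℝ g] [LieRing g'] [LieAlgebra ℝ g']

theorem negRic_of_equiv (e : g ≃ₗ⁅ℝ⁆ g') (h : NegRic g) : NegRic g' := by
  obtain ⟨B, D, hB, hD, hneg⟩ := h
  let E : g ≃ₗ[ℝ] g' := e.toLinearEquiv
  have hEs : ∀ x : g', E (e.symm x) = x := fun x => e.apply_symm_apply x
  have hsE : ∀ x : g, e.symm (E x) = x := fun x => e.symm_apply_apply x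
  let B' : g' →ₗ[ℝ] g' →ₗ[ℝ] ℝ :=
    LinearMap.mk₂ ℝ (fun x y => B (e.symm x) (e.symm y))
      (by intros; simp) (by intros; simp) (by intros; simp) (by intros; simp)
  let D' : g' →ₗ[ℝ] g' →ₗ[ℝ] g' :=
    LinearMap.mk₂ ℝ (fun x y => E (D (e.symm x) (e.symm y)))
      (by intros; simp) (by intros; simp) (by intros; simp) (by intros; simp)
  have hB' : ∀ x y, B' x y = B (e.symm x) (e.symm y) := fun x y => rfl
  have hD' : ∀ x y, D' x y = E (D (e.symm x) (e.symm y)) := fun x y => rfl
  refine ⟨B', D', ⟨?_, ?_⟩, ⟨?_, ?_⟩, ?_⟩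
  · intro x y
    rw [hB', hB', hB.symm]
  · intro x hx
    rw [hB']
    apply hB.pos
    intro h0
    apply hx
    have := hEs x
    rw [h0, map_zero] at this
    exact this.symm
  · intro x y
    rw [hD', hD', ← map_sub, hD.torsion]
    show e ⁅e.symm x, e.symm y⁆ = _
    rw [LieEquiv.map_lie, LieEquiv.apply_symm_apply, LieEquiv.apply_symm_apply]
  · intro x y z
    rw [hD', hD', hB', hB', hsE, hsE]
    exact hD.metric _ _ _
  · intro x hx
    have hx' : e.symm x ≠ 0 := by
      intro h0
      apply hx
      have := hEs x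
      rw [h0, map_zero] at this
      exact this.symm
    have h1 := hneg (e.symm x) hx'
    have h2 : curvEnd D' x x = E.conj (curvEnd D (e.symm x) (e.symm x)) := by
      ext z
      rw [LinearEquiv.conj_apply]
      show D' z (D' x x) - D' x (D' z x) - D' ⁅z, x⁆ x =
        E (D (E.symm z) (D (e.symm x) (e.symm x)) - D (e.symm x) (D (E.symm z) (e.symm x)) -
          D ⁅E.symm z, e.symm x⁆ (e.symm x))
      have h3 : E.symm z = e.symm z := rfl
      rw [h3, map_sub, map_sub]
      simp only [hD', hsE]
      rw [LieEquiv.map_lie]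
    unfold ric
    rw [h2, LinearMap.trace_conj']
    exact h1

end transfer

section nil

variable {g : Type} [LieRing g] [LieAlgebra ℝ g] [FiniteDimensional ℝ g]

/-- `n + ℝ v` is nilpotent if `v` centralizes `n` and `[g,g] ⊆ n`. -/
theorem nil_of_central (n J : LieIdeal ℝ g) (hn : LieRing.IsNilpotent n)
    (hder : ∀ x y : g, ⁅x, y⁆ ∈ n) (v : g) (hJ : J.toSubmodule = Submodule.span ℝ {v} ⊔ n.toSubmodule)
    (hv : ∀ u ∈ n, ⁅v, u⁆ = 0) : LieRing.IsNilpotent J := by
  rw [LieAlgebra.isNilpotent_iff_forall (R := ℝ)] at hn ⊢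
  have hnJ : n.toSubmodule ≤ J.toSubmodule := by
    rw [hJ]
    exact le_sup_right
  intro x
  have hx : (x : g) ∈ J.toSubmodule := x.2
  rw [hJ, Submodule.mem_sup] at hx
  obtain ⟨a, ha, m, hm, hxam⟩ := hx
  rw [Submodule.mem_span_singleton] at ha
  obtain ⟨r, rfl⟩ := ha
  have hm' : m ∈ n := hm
  obtain ⟨k, hk⟩ := hn ⟨m, hm'⟩
  refine ⟨k + 1, ?_⟩
  have key : ∀ (j : ℕ) (u : g) (hu : u ∈ n) (huJ : u ∈ J),
      (((LieAlgebra.ad ℝ J x) ^ j) ⟨u, huJ⟩ : g) =
        ((((LieAlgebra.ad ℝ n ⟨m, hm'⟩) ^ j) ⟨u, hu⟩ : n) : g) := by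
    intro j
    induction j with
    | zero => intro u hu huJ; rfl
    | succ j ih =>
      intro u hu huJ
      rw [pow_succ, pow_succ, Module.End.mul_apply, Module.End.mul_apply]
      have h1 : (LieAlgebra.ad ℝ n ⟨m, hm'⟩) ⟨u, hu⟩ = ⟨⁅m, u⁆, hder m u⟩ := rfl
      have h2 : (LieAlgebra.ad ℝ J x) ⟨u, huJ⟩ = ⟨⁅m, u⁆, hnJ (hder m u)⟩ := by
        apply Subtype.ext
        show ⁅(x : g), u⁆ = ⁅m, u⁆
        rw [← hxam, add_lie, smul_lie, hv u hu, smul_zero, zero_add]
      rw [h1, h2]
      exact ih _ _ _
  apply LinearMap.ext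
  intro y
  rw [pow_succ, Module.End.mul_apply]
  have h3 : (LieAlgebra.ad ℝ J x) y = ⟨⁅(x : g), (y : g)⁆, hnJ (hder _ _)⟩ := rfl
  rw [h3]
  apply Subtype.ext
  rw [key k _ (hder _ _), hk]
  rfl

end nil

theorem p_BWD (hZ : P_ZLIE) (hDER : P_DER) : P_BWD := by
  intro g _ _ _ _ n hnil hrank
  have hder := hDER g n hnil
  obtain ⟨Y, hY, K1, hK1, hneg1⟩ := hrank
  have main : ∀ (d : ℕ) (h : LieSubalgebra ℝ g), n.toSubmodule < h.toSubmodule → NegRic h →
      Module.finrank ℝ g - Module.finrank ℝ h.toSubmodule ≤ d → NegRic g := by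
    intro d
    induction d with
    | zero =>
      intro h _ hneg hd
      have hle := Submodule.finrank_le h.toSubmodule
      have htop : h.toSubmodule = ⊤ := by
        apply Submodule.eq_top_of_finrank_eq
        omega
      have htop' : h = ⊤ := by
        rw [← LieSubalgebra.toSubmodule_inj, htop]
        rfl
      subst htop'
      exact negRic_of_equiv LieSubalgebra.topEquiv hneg
    | succ d ih =>
      intro h hnh hneg hd
      by_cases htop' : h = ⊤
      · subst htop'
        exact negRic_of_equiv LieSubalgebra.topEquiv hneg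
      · have hex : ∃ Z : g, Z ∉ h := by
          by_contra hcon
          push Not at hcon
          apply htop'
          rw [eq_top_iff]
          intro z _
          exact hcon z
        obtain ⟨Z, hZh⟩ := hex
        let K : LieSubalgebra ℝ g :=
          { (Submodule.span ℝ {Z} ⊔ h.toSubmodule : Submodule ℝ g) with
            lie_mem' := by
              intro x y _ _
              exact (le_sup_right : h.toSubmodule ≤ _) (hnh.le (hder x y)) }
        have hK : K.toSubmodule = Submodule.span ℝ {Z} ⊔ h.toSubmodule := rfl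
        have hhK : h.toSubmodule < K.toSubmodule := by
          rw [hK]
          refine lt_of_le_of_ne le_sup_right ?_
          intro heq
          apply hZh
          have : Z ∈ Submodule.span ℝ {Z} ⊔ h.toSubmodule :=
            (le_sup_left : Submodule.span ℝ {Z} ≤ _) (Submodule.mem_span_singleton_self Z)
          rw [← heq] at this
          exact this
        have hnegK := hZ g h K n Z hder hnh hZh hK (by
          intro w hw
          by_contra hcon
          push Not at hcon
          let J : LieIdeal ℝ g :=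
            { (Submodule.span ℝ {Z + w} ⊔ n.toSubmodule : Submodule ℝ g) with
              lie_mem := by
                intro x m _
                exact (le_sup_right : n.toSubmodule ≤ _) (hder x m) }
          have hJ : J.toSubmodule = Submodule.span ℝ {Z + w} ⊔ n.toSubmodule := rfl
          have hJn := hnil.2 J (nil_of_central n J hnil.1 hder (Z + w) hJ hcon)
          have h1 : Z + w ∈ n := by
            apply hJn
            show Z + w ∈ J.toSubmodule
            rw [hJ]
            exact (le_sup_left : Submodule.span ℝ {Z + w} ≤ _)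
              (Submodule.mem_span_singleton_self _)
          have h2 : Z + w ∈ h := hnh.le h1
          apply hZh
          have h3 := h.sub_mem h2 hw
          simpa using h3) hneg
        have hlt := Submodule.finrank_lt_finrank_of_lt hhK
        exact ih K (hnh.trans hhK) hnegK (by omega)
  refine main _ K1 ?_ hneg1 le_rfl
  rw [hK1]
  refine lt_of_le_of_ne le_sup_right ?_
  intro heq
  apply hY
  have : Y ∈ Submodule.span ℝ {Y} ⊔ n.toSubmodule :=
    (le_sup_left : Submodule.span ℝ {Y} ≤ _) (Submodule.mem_span_singleton_self Y)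
  rw [← heq] at this
  exact this

end R877.RN
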